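import Mathlib

set_option autoImplicit false
open Set Filter Topology MeasureTheory Metric Matrix

namespace Pool.Agent.H.MP_aac655_gt

abbrev V := Fin 3 → ℝ

def Body (K : Set V) : Prop := IsCompact K ∧ Convex ℝ K ∧ (0 : V) ∈ interior K

noncomputable def h (K : Set V) (ξ : V) : ℝ := sSup ((· ⬝ᵥ ξ) '' K)

def pol (K : Set V) : Set V := {ξ | ∀ x ∈ K, x ⬝ᵥ ξ ≤ 1}

def N (K : Set V) : Set (V × V) := {p | p.1 ∈ K ∧ p.2 ∈ pol K ∧ p.1 ⬝ᵥ p.2 = 1}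

noncomputable def X (K : Set V) (ξ : V) : V := fun i => fderiv ℝ (h K) ξ (Pi.single i 1)

noncomputable def S (K : Set V) (ξ : V) : V × V := (X K ξ, (h K ξ)⁻¹ • ξ)

theorem dot_le (x ξ : V) : x ⬝ᵥ ξ ≤ 3 * ‖x‖ * ‖ξ‖ := by
  have : ∀ i, x i * ξ i ≤ ‖x‖ * ‖ξ‖ := fun i =>
    (le_abs_self _).trans (by
      rw [abs_mul]; gcongr
      exacts [norm_le_pi_norm x i, norm_le_pi_norm ξ i])
  simp only [dotProduct, Fin.sum_univ_three]
  linarith [this 0, this 1, this 2]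

variable {K L : Set V}

theorem Body.zero (hK : Body K) : (0 : V) ∈ K := interior_subset hK.2.2

theorem Body.ex (hK : Body K) (ξ : V) : ∃ x ∈ K, h K ξ = x ⬝ᵥ ξ :=
  hK.1.exists_sSup_image_eq ⟨_, hK.zero⟩ (by fun_prop)

theorem Body.le (hK : Body K) {x : V} (hx : x ∈ K) (ξ : V) : x ⬝ᵥ ξ ≤ h K ξ :=
  le_csSup (hK.1.bddAbove_image (by fun_prop)) ⟨x, hx, rfl⟩

theorem Body.h_le (hK : Body K) {ξ : V} {c : ℝ} (H : ∀ x ∈ K, x ⬝ᵥ ξ ≤ c) : h K ξ ≤ c := by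
  obtain ⟨x, hx, e⟩ := hK.ex ξ
  exact e ▸ H x hx

theorem Body.mem_pol (hK : Body K) {ξ : V} : ξ ∈ pol K ↔ h K ξ ≤ 1 :=
  ⟨hK.h_le, fun H _ hx => (hK.le hx ξ).trans H⟩

theorem Body.up (hK : Body K) : ∃ R, 0 < R ∧ ∀ x ∈ K, ‖x‖ ≤ R := hK.1.isBounded.exists_pos_norm_le

theorem Body.lip (hK : Body K) : ∃ C, LipschitzWith C (h K) := by
  obtain ⟨R, R0, hR⟩ := hK.up
  refine ⟨⟨3 * R, by positivity⟩, LipschitzWith.of_le_add_mul _ fun ξ η => hK.h_le fun x hx => ?_⟩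
  have := dot_le x (ξ - η)
  have h2 := hK.le hx η
  rw [dotProduct_sub] at this
  have h3 : 3 * ‖x‖ * ‖ξ - η‖ ≤ 3 * R * ‖ξ - η‖ := by gcongr; exact hR x hx
  change _ ≤ _ + 3 * R * _
  rw [dist_eq_norm]; linarith

theorem Body.cont (hK : Body K) : Continuous (h K) := hK.lip.choose_spec.continuous

theorem Body.low (hK : Body K) : ∃ r, 0 < r ∧ ∀ ξ, r * ‖ξ‖ ≤ h K ξ := by
  obtain ⟨r, r0, hr⟩ := nhds_basis_closedBall.mem_iff.1 (mem_interior_iff_mem_nhds.1 hK.2.2)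
  refine ⟨r, r0, fun ξ => ?_⟩
  have h0 : 0 ≤ h K ξ := by simpa using hK.le hK.zero ξ
  rw [← le_div_iff₀' r0, pi_norm_le_iff_of_nonneg (by positivity)]
  intro i
  have a : ∀ t : ℝ, |t| ≤ r → t * ξ i ≤ h K ξ := fun t ht => by
    simpa using hK.le (x := Pi.single i t) (hr (by simpa [Pi.norm_single] using ht)) ξ
  rw [le_div_iff₀' r0, Real.norm_eq_abs]
  have a1 := a r (by rw [abs_of_pos r0])
  have a2 := a (-r) (by rw [abs_neg, abs_of_pos r0])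
  rcases abs_cases (ξ i) with ⟨e, -⟩ | ⟨e, -⟩ <;> rw [e] <;> linarith

theorem Body.pos (hK : Body K) {ξ : V} (h0 : ξ ≠ 0) : 0 < h K ξ := by
  obtain ⟨r, r0, hr⟩ := hK.low
  exact lt_of_lt_of_le (by positivity) (hr ξ)

theorem rep (f : V →ₗ[ℝ] ℝ) (x : V) : x ⬝ᵥ (fun i => f (Pi.single i 1)) = f x := by
  rw [LinearMap.pi_apply_eq_sum_univ f x]
  refine Finset.sum_congr rfl fun i _ => ?_
  exact congrArg (fun t => x i * f t) (funext fun j => by simp [Pi.single_apply, eq_comm])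

theorem mem_of (hc : IsClosed K) (hv : Convex ℝ K) {y : V}
    (H : ∀ η u, (∀ x ∈ K, x ⬝ᵥ η < u) → y ⬝ᵥ η ≤ u) : y ∈ K := by
  by_contra hy
  obtain ⟨f, u, h1, h2⟩ := geometric_hahn_banach_closed_point hv hc hy
  have := H (fun i => f (Pi.single i 1)) u fun x hx => (rep f x).trans_lt (h1 x hx)
  linarith [(rep f y).symm.trans_le this, show f.toLinearMap y = f y from rfl]

theorem Body.mem (hK : Body K) {y : V} (H : ∀ η, y ⬝ᵥ η ≤ h K η) : y ∈ K :=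
  mem_of hK.1.isClosed hK.2.1 fun η _ hu => (H η).trans (hK.h_le fun x hx => (hu x hx).le)

theorem Body.pol (hK : Body K) : Body (pol K) := by
  obtain ⟨R, R0, hR⟩ := hK.up
  obtain ⟨r, r0, hr⟩ := hK.low
  refine ⟨isCompact_of_isClosed_isBounded ?_ ((isBounded_closedBall (x := 0) (r := r⁻¹)).subset
    fun ξ H => ?_), fun a ha b hb s t hs ht hst x hx => ?_, mem_interior_iff_mem_nhds.2
    (mem_of_superset (closedBall_mem_nhds 0 (ε := (3 * R)⁻¹) (by positivity)) fun ξ H x hx => ?_)⟩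
  · simp only [MP_aac655_gt.pol, ofPred_forall]
    exact isClosed_biInter fun x _ => isClosed_le (by fun_prop) continuous_const
  · rw [mem_closedBall_zero_iff, inv_eq_one_div, le_div_iff₀' r0]
    exact (hr ξ).trans (hK.mem_pol.1 H)
  · rw [dotProduct_add, dotProduct_smul, dotProduct_smul, smul_eq_mul, smul_eq_mul]
    nlinarith [ha x hx, hb x hx]
  · rw [mem_closedBall_zero_iff, inv_eq_one_div, le_div_iff₀' (by positivity)] at H
    refine (dot_le x ξ).trans (le_trans ?_ H)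
    gcongr; exact hR x hx

theorem Body.inv_mem (hK : Body K) (ξ : V) : (h K ξ)⁻¹ • ξ ∈ MP_aac655_gt.pol K := fun x hx => by
  rcases eq_or_ne ξ 0 with rfl | h0
  · simp
  rw [dotProduct_smul, smul_eq_mul, inv_mul_le_iff₀ (hK.pos h0), mul_one]
  exact hK.le hx ξ

theorem Body.pol_pol (hK : Body K) : MP_aac655_gt.pol (MP_aac655_gt.pol K) = K := by
  refine Subset.antisymm (fun y hy => hK.mem fun η => ?_)
    fun x hx ξ H => (dotProduct_comm _ _).trans_le (H x hx)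
  rcases eq_or_ne η 0 with rfl | h0
  · simpa using hK.le hK.zero 0
  have := hy _ (hK.inv_mem η)
  rwa [smul_dotProduct, smul_eq_mul, inv_mul_le_iff₀ (hK.pos h0), mul_one, dotProduct_comm] at this

theorem Body.N_pol (hK : Body K) (p : V × V) : p.swap ∈ N (MP_aac655_gt.pol K) ↔ p ∈ N K := by
  simp only [N, hK.pol_pol, mem_ofPred_eq, Prod.fst_swap, Prod.snd_swap, dotProduct_comm p.2]
  tauto

theorem Body.N_cpt (hK : Body K) : IsCompact (N K) :=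
  ((hK.1.prod hK.pol.1).inter_right (t := {p : V × V | p.1 ⬝ᵥ p.2 = 1})
    (isClosed_eq (by fun_prop) continuous_const)).of_isClosed_subset
    (((hK.1.isClosed.preimage continuous_fst).inter ((hK.pol.1.isClosed.preimage
      continuous_snd).inter (isClosed_eq (by fun_prop) continuous_const))))
    fun _ H => ⟨⟨H.1, H.2.1⟩, H.2.2⟩

def Good (K : Set V) (ξ : V) : Prop := ξ ≠ 0 ∧ ∀ y ∈ K, h K ξ = y ⬝ᵥ ξ → X K ξ = y

theorem Body.good (hK : Body K) : ∀ᵐ ξ, Good K ξ := by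
  obtain ⟨C, hC⟩ := hK.lip
  have : ∀ᵐ ξ : V, ξ ≠ 0 := by simp [ae_iff]
  filter_upwards [hC.ae_differentiableAt, this] with ξ hd h0
  refine ⟨h0, fun y hy e => funext fun i => ?_⟩
  let l : V →L[ℝ] ℝ := LinearMap.toContinuousLinearMap (dotProductBilin ℝ ℝ y)
  have hm : IsLocalMin (fun η => h K η - l η) ξ := Eventually.of_forall fun η => by
    have := hK.le hy η
    change h K ξ - y ⬝ᵥ ξ ≤ h K η - y ⬝ᵥ η
    linarith
  have := hm.hasFDerivAt_eq_zero (hd.hasFDerivAt.sub l.hasFDerivAt)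
  rw [X, sub_eq_zero.1 this]
  simp [l]

theorem Good.mem {ξ : V} (hK : Body K) (g : Good K ξ) : X K ξ ∈ K ∧ h K ξ = X K ξ ⬝ᵥ ξ := by
  obtain ⟨y, hy, e⟩ := hK.ex ξ
  rw [g.2 y hy e]; exact ⟨hy, e⟩

theorem Good.S_mem {ξ : V} (hK : Body K) (g : Good K ξ) : S K ξ ∈ N K :=
  ⟨(g.mem hK).1, hK.inv_mem ξ, by
    change X K ξ ⬝ᵥ _ • ξ = 1
    rw [dotProduct_smul, ← (g.mem hK).2, smul_eq_mul, inv_mul_cancel₀ (hK.pos g.1).ne']⟩

theorem Good.loc {ξ : V} (hK : Body K) (hL : Body L) (g : Good K ξ) (g' : Good L ξ)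
    (H : S K ξ ∈ N L) : h L ξ = h K ξ ∧ S L ξ = S K ξ := by
  have e : h L ξ = h K ξ := le_antisymm (hL.h_le fun x hx => by
    have := H.2.1 x hx
    change x ⬝ᵥ _ • ξ ≤ 1 at this
    rwa [dotProduct_smul, smul_eq_mul, inv_mul_le_iff₀ (hK.pos g.1), mul_one] at this)
    ((g.mem hK).2.trans_le (hL.le H.1 ξ))
  exact ⟨e, by rw [S, S, e, g'.2 _ H.1 (e.trans (g.mem hK).2)]; rfl⟩

theorem Body.meas (hK : Body K) : Measurable (S K) :=
  (measurable_pi_lambda _ fun _ => measurable_fderiv_apply_const ℝ _ _).prodMk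
    (hK.cont.measurable.inv.smul measurable_id)

def Cv (Ks : ℕ → Set V) (K : Set V) : Prop :=
  ∀ c : ℝ, 1 < c → ∀ᶠ j in atTop, (∀ ξ, h (Ks j) ξ ≤ c * h K ξ) ∧ ∀ ξ, h K ξ ≤ c * h (Ks j) ξ

theorem Body.sub (hK : Body K) (hL : Body L) {c : ℝ} (c0 : 0 < c) (H : ∀ ξ, h K ξ ≤ c * h L ξ)
    {x : V} (hx : x ∈ K) : c⁻¹ • x ∈ L := hL.mem fun η => by
  rw [smul_dotProduct, smul_eq_mul, inv_mul_le_iff₀ c0]
  exact (hK.le hx η).trans (H η)

theorem Body.pol_le (hK : Body K) (hL : Body L) {c : ℝ} (c0 : 0 < c) (H : ∀ ξ, h K ξ ≤ c * h L ξ)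
    (x : V) : h (MP_aac655_gt.pol L) x ≤ c * h (MP_aac655_gt.pol K) x := hL.pol.h_le fun ξ hξ => by
  have := hK.pol.le (x := c⁻¹ • ξ) (fun y hy => by
    rw [dotProduct_smul, smul_eq_mul, inv_mul_le_iff₀ c0]
    refine (hK.le hy ξ).trans ((H ξ).trans ?_)
    gcongr; exact hL.mem_pol.1 hξ) x
  rwa [smul_dotProduct, smul_eq_mul, inv_mul_le_iff₀ c0] at this

theorem Cv.pol {Ks : ℕ → Set V} (H : Cv Ks K) (hK : Body K) (hs : ∀ j, Body (Ks j)) :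
    Cv (fun j => pol (Ks j)) (pol K) := fun c hc => (H c hc).mono fun j ⟨a, b⟩ =>
  ⟨hK.pol_le (hs j) (by linarith) b, (hs j).pol_le hK (by linarith) a⟩

theorem cv_of {Ks : ℕ → Set V} (hK : Body K) (hs : ∀ j, Body (Ks j))
    (H : Tendsto (fun j => hausdorffDist (Ks j) K) atTop (𝓝 0)) : Cv Ks K := fun c hc => by
  obtain ⟨r, r0, hr⟩ := hK.low
  have c0 : 0 < c := by linarith
  have t0 : 0 < 1 - c⁻¹ := sub_pos.2 (inv_lt_one_of_one_lt₀ hc)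
  have t1 : c * c⁻¹ = 1 := mul_inv_cancel₀ c0.ne'
  filter_upwards [H.eventually (gt_mem_nhds (show 0 < (1 - c⁻¹) * r / 3 by positivity))] with j hj
  have fin := hausdorffEDist_ne_top_of_nonempty_of_bounded ⟨_, (hs j).zero⟩ ⟨_, hK.zero⟩
    (hs j).1.isBounded hK.1.isBounded
  have key : ∀ x y ξ : V, dist x y < (1 - c⁻¹) * r / 3 →
      x ⬝ᵥ ξ ≤ y ⬝ᵥ ξ + (1 - c⁻¹) * h K ξ := fun x y ξ hd => by
    have h1 := dot_le (x - y) ξ
    rw [sub_dotProduct, ← dist_eq_norm] at h1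
    have h2 : 3 * dist x y * ‖ξ‖ ≤ 3 * ((1 - c⁻¹) * r / 3) * ‖ξ‖ := by gcongr
    nlinarith [mul_le_mul_of_nonneg_left (hr ξ) t0.le]
  have h0 : ∀ ξ, 0 ≤ h K ξ := fun ξ => le_trans (by positivity) (hr ξ)
  refine ⟨fun ξ => (hs j).h_le fun x hx => ?_, fun ξ => ?_⟩
  · obtain ⟨y, hy, hd⟩ := exists_dist_lt_of_hausdorffDist_lt hx hj fin
    have : 2 - c⁻¹ ≤ c := by nlinarith [sq_nonneg (c - 1), inv_pos.2 c0]
    nlinarith [key x y ξ hd, hK.le hy ξ, h0 ξ]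
  · obtain ⟨x, hx, e⟩ := hK.ex ξ
    obtain ⟨y, hy, hd⟩ := exists_dist_lt_of_hausdorffDist_lt' hx hj fin
    have := key x y ξ (dist_comm x y ▸ hd)
    rw [← inv_mul_le_iff₀ c0]
    linarith [(hs j).le hy ξ]

theorem le_of_gt {a b : ℝ} (H : ∀ c : ℝ, 1 < c → a ≤ c * b) : a ≤ b := by
  have : Tendsto (fun c : ℝ => c * b) (𝓝[>] 1) (𝓝 (1 * b)) :=
    (tendsto_nhdsWithin_of_tendsto_nhds tendsto_id).mul_const b
  exact (ge_of_tendsto this (eventually_nhdsWithin_of_forall H)).trans_eq (one_mul b)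

theorem Cv.tend_h {Ks : ℕ → Set V} (H : Cv Ks K) (ξ : V) :
    Tendsto (fun j => h (Ks j) ξ) atTop (𝓝 (h K ξ)) := by
  have t : ∀ f : ℝ → ℝ, ContinuousAt f 1 → f 1 = 1 → ∀ s ∈ 𝓝 (h K ξ), ∃ c > 1, f c * h K ξ ∈ s :=
    fun f hf e s hs => by
    have : Tendsto (fun c : ℝ => f c * h K ξ) (𝓝[>] 1) (𝓝 (f 1 * h K ξ)) :=
      (tendsto_nhdsWithin_of_tendsto_nhds hf).mul_const _
    rw [e, one_mul] at this
    exact (eventually_mem_nhdsWithin.and (this.eventually hs)).exists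
  refine tendsto_order.2 ⟨fun a ha => ?_, fun a ha => ?_⟩
  · obtain ⟨c, hc, e⟩ := t (·⁻¹) (continuousAt_inv₀ one_ne_zero) inv_one _ (lt_mem_nhds ha)
    exact (H c hc).mono fun j hj => lt_of_lt_of_le e ((inv_mul_le_iff₀ (by linarith)).2 (hj.2 ξ))
  · obtain ⟨c, hc, e⟩ := t id continuousAt_id rfl _ (gt_mem_nhds ha)
    exact (H c hc).mono fun j hj => (hj.1 ξ).trans_lt e

theorem Cv.cpt {Ks : ℕ → Set V} (H : Cv Ks K) (hK : Body K) (hs : ∀ j, Body (Ks j)) :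
    ∃ Q, IsCompact Q ∧ K ⊆ Q ∧ ∀ᶠ j in atTop, Ks j ⊆ Q :=
  ⟨K ∪ (fun x => (2 : ℝ) • x) '' K, hK.1.union (hK.1.image (by fun_prop)), subset_union_left,
    (H 2 one_lt_two).mono fun j hj x hx => Or.inr ⟨_, (hs j).sub hK two_pos hj.1 hx, by simp⟩⟩

theorem Cv.tend_S {Ks : ℕ → Set V} (H : Cv Ks K) (hK : Body K) (hs : ∀ j, Body (Ks j)) {ξ : V}
    (g : Good K ξ) (gs : ∀ j, Good (Ks j) ξ) : Tendsto (fun j => S (Ks j) ξ) atTop (𝓝 (S K ξ)) := by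
  refine Tendsto.prodMk_nhds ?_ (((H.tend_h ξ).inv₀ (hK.pos g.1).ne').smul_const ξ)
  obtain ⟨Q, hQ, -, h2⟩ := H.cpt hK hs
  refine hQ.tendsto_nhds_of_unique_mapClusterPt (h2.mono fun j hj => hj ((gs j).mem (hs j)).1)
    fun y _ hy => (g.2 y (hK.mem fun η => le_of_gt fun c hc => ?_) ?_).symm
  · exact (isClosed_le (f := (· ⬝ᵥ η)) (by fun_prop) continuous_const).mem_of_mapClusterPt hy
      ((H c hc).mono fun j hj => ((hs j).le ((gs j).mem (hs j)).1 η).trans (hj.1 η))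
  · have h3 := hy.continuousAt_comp (f := (· ⬝ᵥ ξ)) (by fun_prop)
    have h4 : Tendsto ((· ⬝ᵥ ξ) ∘ fun j => X (Ks j) ξ) atTop (𝓝 (h K ξ)) :=
      (H.tend_h ξ).congr fun j => ((gs j).mem (hs j)).2
    exact (eq_of_nhds_neBot (h3.clusterPt.mono h4)).symm

end Pool.Agent.H.MP_aac655_gt
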