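import Pool.Agent.H.MP_aac655_gt.A

set_option autoImplicit false
open Set Filter Topology MeasureTheory Metric Matrix

namespace Pool.Agent.H.MP_aac655_gt

noncomputable def ν (K : Set V) : Measure (V × V) :=
  (volume.withDensity fun ξ => ((1 - h K ξ).toNNReal : ENNReal)).map (S K)

noncomputable def μ (K : Set V) : Measure (V × V) := (ν (pol K)).map Prod.swap

noncomputable def m (K : Set V) : Measure (V × V) := μ K ⊓ ν K

variable {K L : Set V}

theorem Body.wm (hK : Body K) : Measurable fun ξ => (1 - h K ξ).toNNReal :=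
  (measurable_const.sub hK.cont.measurable).real_toNNReal

theorem Body.ν_apply (hK : Body K) {s : Set (V × V)} (hs : MeasurableSet s) :
    ν K s = ∫⁻ ξ, (S K ⁻¹' s).indicator (fun ξ => ((1 - h K ξ).toNNReal : ENNReal)) ξ := by
  rw [ν, Measure.map_apply hK.meas hs, withDensity_apply _ (hK.meas hs),
    lintegral_indicator (hK.meas hs)]

theorem Body.ν_ae (hK : Body K) {s : Set (V × V)} (hs : MeasurableSet s) :
    (∀ᵐ p ∂ν K, p ∈ s) ↔ ∀ᵐ ξ, h K ξ < 1 → S K ξ ∈ s := by
  refine (ae_map_iff hK.meas.aemeasurable hs).trans ?_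
  rw [ae_withDensity_iff hK.wm.coe_nnreal_ennreal]
  simp only [ne_eq, ENNReal.coe_eq_zero, Real.toNNReal_eq_zero, not_le, sub_pos]
  rfl

theorem Body.N_meas (hK : Body K) : MeasurableSet (N K) := hK.N_cpt.measurableSet

theorem Body.ν_N (hK : Body K) : ∀ᵐ p ∂ν K, p ∈ N K :=
  (hK.ν_ae hK.N_meas).2 (hK.good.mono fun _ g _ => g.S_mem hK)

theorem Body.μ_N (hK : Body K) : ∀ᵐ p ∂μ K, p ∈ N K :=
  (ae_map_iff measurable_swap.aemeasurable hK.N_meas).2
    (hK.pol.ν_N.mono fun p hp => (hK.N_pol p.swap).1 hp)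

theorem Body.m_N (hK : Body K) : ∀ᵐ p ∂m K, p ∈ N K := ae_mono inf_le_right hK.ν_N

theorem wle {Q : Set V} (hK : Body K) (H : pol K ⊆ Q) (ξ : V) :
    ((1 - h K ξ).toNNReal : ℝ) ≤ Q.indicator 1 ξ := by
  by_cases c : h K ξ ≤ 1
  · have : 0 ≤ h K ξ := by simpa using hK.le hK.zero ξ
    rw [indicator_of_mem (H (hK.mem_pol.2 c))]
    simp [this]
  · rw [Real.toNNReal_of_nonpos (by linarith)]
    exact indicator_nonneg (fun _ _ => zero_le_one) _

theorem Body.ν_fin (hK : Body K) : IsFiniteMeasure (ν K) := by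
  have : IsFiniteMeasure (volume.withDensity fun ξ => ((1 - h K ξ).toNNReal : ENNReal)) :=
    isFiniteMeasure_withDensity (ne_top_of_le_ne_top hK.pol.1.measure_lt_top.ne (by
      rw [← lintegral_indicator_one hK.pol.1.measurableSet]
      refine lintegral_mono fun ξ => ?_
      have := wle hK subset_rfl ξ
      by_cases c : ξ ∈ MP_aac655_gt.pol K
      · rw [indicator_of_mem c, Pi.one_apply] at this ⊢
        exact ENNReal.coe_le_coe.2 (show _ ≤ (1 : NNReal) from this)
      · rw [indicator_of_notMem c] at this ⊢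
        exact ENNReal.coe_le_coe.2 (show _ ≤ (0 : NNReal) from this)))
  unfold ν; infer_instance

theorem Body.μ_fin (hK : Body K) : IsFiniteMeasure (μ K) := by
  have := hK.pol.ν_fin
  unfold μ; infer_instance

theorem Body.m_fin (hK : Body K) : IsFiniteMeasure (m K) :=
  have := hK.ν_fin
  isFiniteMeasure_of_le (ν K) inf_le_right

theorem int_of {ρ : Measure (V × V)} (_ : IsFiniteMeasure ρ) (hK : Body K)
    (H : ∀ᵐ p ∂ρ, p ∈ N K) {F : V × V → ℝ} (hF : Continuous F) : Integrable F ρ := by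
  rw [← Measure.restrict_eq_self_of_ae_mem H]
  exact hF.continuousOn.integrableOn_compact hK.N_cpt

theorem Body.ν_loc (hK : Body K) (hL : Body L) {t : Set (V × V)} (ht : MeasurableSet t)
    (H : t ⊆ N K ∩ N L) : ν K t = ν L t := by
  rw [hK.ν_apply ht, hL.ν_apply ht]
  refine lintegral_congr_ae ?_
  filter_upwards [hK.good, hL.good] with ξ g g'
  by_cases c : S K ξ ∈ t
  · obtain ⟨e1, e2⟩ := g.loc hK hL g' (H c).2
    rw [indicator_of_mem (show ξ ∈ S K ⁻¹' t from c),
      indicator_of_mem (show ξ ∈ S L ⁻¹' t from show S L ξ ∈ t from e2 ▸ c), e1]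
  · rw [indicator_of_notMem (show ξ ∉ S K ⁻¹' t from c), indicator_of_notMem]
    exact fun c' => c ((g'.loc hL hK g (H c').1).2 ▸ c')

theorem Body.μ_loc (hK : Body K) (hL : Body L) {t : Set (V × V)} (ht : MeasurableSet t)
    (H : t ⊆ N K ∩ N L) : μ K t = μ L t := by
  rw [μ, μ, Measure.map_apply measurable_swap ht, Measure.map_apply measurable_swap ht]
  exact hK.pol.ν_loc hL.pol (measurable_swap ht) fun p hp =>
    ⟨(hK.N_pol p.swap).2 (H hp).1, (hL.N_pol p.swap).2 (H hp).2⟩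

theorem restrict_inf {α : Type} [MeasurableSpace α] (a b : Measure α) {t : Set α}
    (ht : MeasurableSet t) : (a ⊓ b).restrict t = a.restrict t ⊓ b.restrict t := by
  refine le_antisymm (le_inf (Measure.restrict_mono subset_rfl inf_le_left)
    (Measure.restrict_mono subset_rfl inf_le_right)) ?_
  rw [← Measure.restrict_eq_self_of_ae_mem (μ := a.restrict t ⊓ b.restrict t) (s := t)
    (ae_mono inf_le_left (ae_restrict_mem ht))]
  exact Measure.restrict_mono subset_rfl
    (inf_le_inf Measure.restrict_le_self Measure.restrict_le_self)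

theorem Body.m_loc (hK : Body K) (hL : Body L) {t : Set (V × V)} (ht : MeasurableSet t)
    (H : t ⊆ N K ∩ N L) : m K t = m L t := by
  have e1 : (μ K).restrict t = (μ L).restrict t := Measure.ext fun s hs => by
    rw [Measure.restrict_apply hs, Measure.restrict_apply hs,
      hK.μ_loc hL (hs.inter ht) (inter_subset_right.trans H)]
  have e2 : (ν K).restrict t = (ν L).restrict t := Measure.ext fun s hs => by
    rw [Measure.restrict_apply hs, Measure.restrict_apply hs,
      hK.ν_loc hL (hs.inter ht) (inter_subset_right.trans H)]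
  rw [← Measure.restrict_apply_univ, ← Measure.restrict_apply_univ t, m, m, restrict_inf _ _ ht,
    restrict_inf _ _ ht, e1, e2]

theorem Body.split (hK : Body K) (hL : Body L) (s : Set (V × V)) :
    m K s = m K (s ∩ (N K ∩ N L)) + m K (s ∩ (N K \ N L)) := by
  rw [← inter_assoc, ← inter_diff_assoc, measure_inter_add_sdiff _ hL.N_meas]
  exact measure_congr (hK.m_N.mono fun p hp => propext ⟨fun a => ⟨a, hp⟩, fun a => a.1⟩)

theorem Body.inter (hK : Body K) (hL : Body L) : Body (K ∩ L) :=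
  ⟨hK.1.inter hL.1, hK.2.1.inter hL.2.1, by rw [interior_inter]; exact ⟨hK.2.2, hL.2.2⟩⟩

theorem Body.union (hK : Body K) (hL : Body L) (c : Convex ℝ (K ∪ L)) : Body (K ∪ L) :=
  ⟨hK.1.union hL.1, c, interior_mono subset_union_left hK.2.2⟩

theorem seg (hK : Body K) (hL : Body L) (c : Convex ℝ (K ∪ L)) {y z : V} (hy : y ∈ K)
    (hz : z ∈ L) : ∃ a b : ℝ, 0 ≤ a ∧ 0 ≤ b ∧ a + b = 1 ∧ a • y + b • z ∈ K ∩ L := by
  obtain ⟨_, ⟨a, b, ha, hb, e, rfl⟩, hw⟩ := isPreconnected_closed_iff.1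
    (convex_segment y z).isPreconnected K L hK.1.isClosed hL.1.isClosed
    (c.segment_subset (Or.inl hy) (Or.inr hz)) ⟨y, left_mem_segment _ _ _, hy⟩
    ⟨z, right_mem_segment _ _ _, hz⟩
  exact ⟨a, b, ha, hb, e, hw⟩

theorem N_sub (hK : Body K) (hL : Body L) (c : Convex ℝ (K ∪ L)) :
    N K ⊆ N (K ∪ L) ∪ N (K ∩ L) := fun p ⟨h1, h2, h3⟩ => by
  by_cases x : p.1 ∈ L
  · exact Or.inr ⟨⟨h1, x⟩, fun y hy => h2 y hy.1, h3⟩
  refine Or.inl ⟨Or.inl h1, fun z hz => hz.elim (h2 z) fun hz => not_lt.1 fun hl => x ?_, h3⟩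
  obtain ⟨a, b, ha, hb, e, hw⟩ := seg hK hL c h1 hz
  have := h2 _ hw.1
  rw [add_dotProduct, smul_dotProduct, smul_dotProduct, h3, smul_eq_mul, smul_eq_mul] at this
  obtain rfl : b = 0 := by nlinarith
  obtain rfl : a = 1 := by linarith
  simpa using hw.2

theorem val (hK : Body K) (hL : Body L) (c : Convex ℝ (K ∪ L)) :
    m (K ∪ L) + m (K ∩ L) = m K + m L := by
  have hU := hK.union hL c
  have hI := hK.inter hL
  have a1 : N (K ∪ L) ⊆ N K ∪ N L := fun p ⟨h1, h2, h3⟩ =>
    h1.imp (fun a => ⟨a, fun y hy => h2 y (Or.inl hy), h3⟩)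
      fun a => ⟨a, fun y hy => h2 y (Or.inr hy), h3⟩
  have a2 : N K ∩ N L ⊆ N (K ∪ L) ∩ N (K ∩ L) := fun p ⟨⟨h1, h2, h3⟩, h4, h5, _⟩ =>
    ⟨⟨Or.inl h1, fun y hy => hy.elim (h2 y) (h5 y), h3⟩, ⟨h1, h4⟩, fun y hy => h2 y hy.1, h3⟩
  have a3 : N (K ∪ L) ∩ N (K ∩ L) ⊆ N K ∩ N L := fun p ⟨⟨_, h2, h3⟩, h4, _, _⟩ =>
    ⟨⟨h4.1, fun y hy => h2 y (Or.inl hy), h3⟩, h4.2, fun y hy => h2 y (Or.inr hy), h3⟩
  have a4 := N_sub hK hL c
  have a5 := N_sub hL hK (union_comm K L ▸ c)
  rw [union_comm L, inter_comm L] at a5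
  have a6 : N (K ∩ L) ⊆ N K ∪ N L := fun p ⟨h1, h2, h3⟩ => by
    by_contra hc
    simp only [N, pol, mem_union, mem_ofPred_eq, h1.1, h1.2, h3, true_and, and_true, not_or,
      not_forall, not_le] at hc
    obtain ⟨⟨y, hy, h4⟩, z, hz, h5⟩ := hc
    obtain ⟨a, b, ha, hb, e, hw⟩ := seg hK hL c hy hz
    have := h2 _ hw
    rw [add_dotProduct, smul_dotProduct, smul_dotProduct, smul_eq_mul, smul_eq_mul] at this
    rcases le_total (y ⬝ᵥ p.2) (z ⬝ᵥ p.2) with d | d <;> nlinarith
  have e1 : N K \ N (K ∪ L) = N (K ∩ L) \ N L := by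
    ext p; have := @a2 p; have := @a3 p; have := @a4 p; have := @a6 p; grind
  have e2 : N L \ N (K ∩ L) = N (K ∪ L) \ N K := by
    ext p; have := @a2 p; have := @a3 p; have := @a5 p; have := @a1 p; grind
  ext s hs
  rw [Measure.add_apply, Measure.add_apply, hU.split hK, hI.split hL, hK.split hU, hL.split hI, e1,
    e2, inter_comm (N K), inter_comm (N L),
    hU.m_loc hK (hs.inter (hU.N_meas.inter hK.N_meas)) inter_subset_right,
    hI.m_loc hL (hs.inter (hI.N_meas.inter hL.N_meas)) inter_subset_right,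
    hU.m_loc hL (hs.inter (hU.N_meas.diff hK.N_meas))
      fun p hp => ⟨hp.2.1, (a1 hp.2.1).resolve_left hp.2.2⟩,
    hI.m_loc hK (hs.inter (hI.N_meas.diff hL.N_meas))
      fun p hp => ⟨hp.2.1, (a6 hp.2.1).resolve_right hp.2.2⟩]
  ring

theorem Body.ν_int (hK : Body K) {F : V × V → ℝ} (hF : Continuous F) :
    ∫ p, F p ∂ν K = ∫ ξ, (1 - h K ξ).toNNReal • F (S K ξ) := by
  rw [ν, integral_map hK.meas.aemeasurable hF.aestronglyMeasurable,
    integral_withDensity_eq_integral_smul hK.wm]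

theorem Cv.weak {Ks : ℕ → Set V} (H : Cv Ks K) (hK : Body K) (hs : ∀ j, Body (Ks j))
    {F : V × V → ℝ} (hF : Continuous F) :
    Tendsto (fun j => ∫ p, F p ∂ν (Ks j)) atTop (𝓝 (∫ p, F p ∂ν K)) := by
  obtain ⟨Q, hQ, -, q⟩ := H.cpt hK hs
  obtain ⟨Q', hQ', -, q'⟩ := (H.pol hK hs).cpt hK.pol fun j => (hs j).pol
  obtain ⟨C, hC⟩ := (hQ.prod hQ').exists_bound_of_continuousOn hF.continuousOn
  simp only [(hs _).ν_int hF, hK.ν_int hF]
  refine tendsto_integral_filter_of_dominated_convergence (fun ξ => Q'.indicator 1 ξ * C)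
    (Eventually.of_forall fun j =>
      ((hs j).wm.smul (hF.measurable.comp (hs j).meas)).aestronglyMeasurable) ?_
    (Integrable.mul_const ((integrable_indicator_iff hQ'.measurableSet).2
      (continuousOn_const.integrableOn_compact hQ')) C) ?_
  · filter_upwards [q, q'] with j h1 h2
    filter_upwards [(hs j).good] with ξ g
    have := g.S_mem (hs j)
    rw [NNReal.smul_def, norm_smul, Real.norm_of_nonneg NNReal.zero_le_coe]
    exact mul_le_mul (wle (hs j) h2 ξ) (hC _ ⟨h1 this.1, h2 this.2.1⟩) (norm_nonneg _)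
      (indicator_nonneg (fun _ _ => zero_le_one) _)
  · filter_upwards [hK.good, ae_all_iff.2 fun j => (hs j).good] with ξ g gs
    exact ((continuous_real_toNNReal.tendsto _).comp ((H.tend_h ξ).const_sub 1)).smul
      ((hF.tendsto _).comp (H.tend_S hK hs g gs))

theorem Cv.weak' {Ks : ℕ → Set V} (H : Cv Ks K) (hK : Body K) (hs : ∀ j, Body (Ks j))
    {F : V × V → ℝ} (hF : Continuous F) :
    Tendsto (fun j => ∫ p, F p ∂μ (Ks j)) atTop (𝓝 (∫ p, F p ∂μ K)) := by
  simp only [μ, integral_map measurable_swap.aemeasurable hF.aestronglyMeasurable]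
  exact (H.pol hK hs).weak hK.pol (fun j => (hs j).pol) (hF.comp continuous_swap)

theorem Cv.usc {Ks : ℕ → Set V} (H : Cv Ks K) (hK : Body K) (hs : ∀ j, Body (Ks j))
    {F : V × V → ℝ} (hF : Continuous F) (F0 : ∀ p, 0 ≤ F p) {ε : ℝ} (hε : 0 < ε) :
    ∀ᶠ j in atTop, ∫ p, F p ∂m (Ks j) ≤ ∫ p, F p ∂m K + ε := by
  have := hK.μ_fin
  have := hK.ν_fin
  obtain ⟨s, s1, s2, s3⟩ := exists_isHahnDecomposition (μ K) (ν K)
  have i1 : ∀ {G : V × V → ℝ}, Continuous G → Integrable G (μ K) := int_of hK.μ_fin hK hK.μ_N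
  have i2 : ∀ {G : V × V → ℝ}, Continuous G → Integrable G (ν K) := int_of hK.ν_fin hK hK.ν_N
  have e : ∫ p, s.indicator F p ∂μ K + ∫ p, (F p - s.indicator F p) ∂ν K ≤ ∫ p, F p ∂m K := by
    have : (fun p => F p - s.indicator F p) = sᶜ.indicator F := by
      ext p; by_cases c : p ∈ s <;> simp [c]
    rw [this, integral_indicator s1, integral_indicator s1.compl,
      ← integral_add_measure (i1 hF).integrableOn (i2 hF).integrableOn]
    refine integral_mono_measure (le_inf ?_ ?_) (Eventually.of_forall F0)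
      (int_of hK.m_fin hK hK.m_N hF)
    · exact (add_le_add le_rfl s3).trans_eq (Measure.restrict_add_restrict_compl s1)
    · exact (add_le_add s2 le_rfl).trans_eq (Measure.restrict_add_restrict_compl s1)
  have j1 := (i1 hF).indicator s1
  have j2 := (i2 hF).indicator s1
  obtain ⟨g, g1, -⟩ := (j1.add_measure j2).exists_boundedContinuous_integral_sub_le (half_pos hε)
  let φ : V × V → ℝ := fun p => max 0 (min (g p) (F p))
  have hφ : Continuous φ := by fun_prop
  have φ1 : ∀ p, |φ p - s.indicator F p| ≤ ‖s.indicator F p - g p‖ := fun p => by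
    have := F0 p
    by_cases c : p ∈ s <;> simp only [φ, indicator_of_mem, indicator_of_notMem, c,
      not_false_eq_true, Real.norm_eq_abs] <;> grind
  have k1 := (j1.sub (i1 g.continuous)).norm
  have k2 := (j2.sub (i2 g.continuous)).norm
  have e2 : ∫ p, φ p ∂μ K + ∫ p, (F p - φ p) ∂ν K < ∫ p, F p ∂m K + ε := by
    have u1 := integral_mono (i1 hφ) (j1.add k1) fun p => by
      have := (abs_le.1 (φ1 p)).2
      change _ ≤ s.indicator F p + ‖s.indicator F p - g p‖
      linarith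
    have u2 := integral_mono (i2 (hF.sub hφ)) (((i2 hF).sub j2).add k2) fun p => by
      have := (abs_le.1 (φ1 p)).1
      change F p - φ p ≤ F p - s.indicator F p + ‖s.indicator F p - g p‖
      linarith
    rw [integral_add' j1 k1] at u1
    rw [integral_add' ((i2 hF).sub j2) k2] at u2
    have := integral_add_measure k1 k2
    simp only [Pi.sub_apply] at *
    linarith
  filter_upwards [((H.weak' hK hs hφ).add (H.weak hK hs (hF.sub hφ))).eventually (gt_mem_nhds e2)]
    with j hj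
  refine le_trans ?_ hj.le
  have i3 : ∀ {G : V × V → ℝ}, Continuous G → Integrable G (m (Ks j)) :=
    int_of (hs j).m_fin (hs j) (hs j).m_N
  rw [show ∫ p, F p ∂m (Ks j) = ∫ p, φ p ∂m (Ks j) + ∫ p, (F p - φ p) ∂m (Ks j) by
    rw [← integral_add (i3 hφ) (i3 (G := fun p => F p - φ p) (hF.sub hφ))]; simp]
  exact add_le_add (integral_mono_measure inf_le_left (Eventually.of_forall fun p => le_max_left _ _)
    (int_of (hs j).μ_fin (hs j) (hs j).μ_N hφ)) (integral_mono_measure inf_le_right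
    (Eventually.of_forall fun p => sub_nonneg.2 (max_le (F0 p) (min_le_right _ _)))
    (int_of (hs j).ν_fin (hs j) (hs j).ν_N (hF.sub hφ)))

theorem poly {F : Set V} (hF : F.Finite) (hK : Body (convexHull ℝ F)) : m (convexHull ℝ F) = 0 := by
  have hs : MeasurableSet (Prod.fst ⁻¹' F : Set (V × V)) := measurable_fst hF.measurableSet
  have h1 : ∀ᵐ p ∂ν (convexHull ℝ F), p ∈ Prod.fst ⁻¹' F :=
    (hK.ν_ae hs).2 (hK.good.mono fun ξ g _ => by
      obtain ⟨y, hy, e⟩ := ((dotProductBilin ℝ ℝ ξ).convexOn convex_univ).exists_ge_of_mem_convexHull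
        (subset_univ F) (g.mem hK).1
      have hy' := subset_convexHull ℝ F hy
      have e' : ξ ⬝ᵥ X _ ξ ≤ ξ ⬝ᵥ y := e
      rw [dotProduct_comm, ← (g.mem hK).2, dotProduct_comm] at e'
      exact show X _ ξ ∈ F from (g.2 y hy' (le_antisymm e' (hK.le hy' ξ))).symm ▸ hy)
  have h2 : ∀ᵐ p ∂μ (convexHull ℝ F), p ∈ (Prod.fst ⁻¹' F)ᶜ := by
    refine (ae_map_iff measurable_swap.aemeasurable hs.compl).2
      ((hK.pol.ν_ae (measurable_swap hs.compl)).2 ?_)
    have : ∀ᵐ ξ : V, ∀ f ∈ F, ξ ∉ Submodule.span ℝ {f} :=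
      (ae_ball_iff hF.countable).2 fun f _ => measure_eq_zero_iff_ae_notMem.1 <|
        Measure.addHaar_submodule volume (Submodule.span ℝ {f}) fun e => by
        have := finrank_span_le_card (R := ℝ) ({f} : Set V)
        rw [e] at this
        simp at this
    filter_upwards [this, hK.pol.good] with ξ a g _ c
    refine a _ c (Submodule.mem_span_singleton.2 ⟨h (pol (convexHull ℝ F)) ξ, ?_⟩)
    exact smul_inv_smul₀ (hK.pol.pos g.1).ne' ξ
  rw [← ae_eq_bot, ← eventually_false_iff_eq_bot]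
  filter_upwards [ae_mono (inf_le_right : m _ ≤ _) h1, ae_mono (inf_le_left : m _ ≤ _) h2] with p a b
  exact b a

end Pool.Agent.H.MP_aac655_gt
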