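import Pool.Agent.H.MP_aac655_gt.B

set_option autoImplicit false
open Set Filter Topology MeasureTheory Metric Matrix

namespace Pool.Agent.H.MP_aac655_gt

abbrev M3 := Matrix (Fin 3) (Fin 3) ℝ

variable {K L : Set V}

theorem dot_mv (T : M3) (x ξ : V) : (T *ᵥ x) ⬝ᵥ ξ = x ⬝ᵥ (Tᵀ *ᵥ ξ) := by
  rw [dotProduct_comm, dotProduct_mulVec, dotProduct_comm, mulVec_transpose]

theorem Body.img (hK : Body K) {T U : M3} (e : Tᵀ * U = 1) : Body (T.mulVec '' K) := by
  have e1 : Uᵀ * T = 1 := by rw [← transpose_transpose T, ← transpose_mul, e, transpose_one]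
  refine ⟨hK.1.image (by fun_prop), hK.2.1.linear_image T.mulVecLin, mem_interior_iff_mem_nhds.2
    (mem_of_superset ((show Continuous Uᵀ.mulVec by fun_prop).continuousAt.preimage_mem_nhds
      (t := K) (by simpa using mem_interior_iff_mem_nhds.1 hK.2.2)) fun x hx => ⟨_, hx, ?_⟩)⟩
  rw [mulVec_mulVec, mul_eq_one_comm.1 e1, one_mulVec]

theorem h_img (T : M3) (ξ : V) : h (T.mulVec '' K) ξ = h K (Tᵀ *ᵥ ξ) := by
  simp only [h, image_image, dot_mv]

theorem pol_img {T U : M3} (e : Tᵀ * U = 1) : pol (T.mulVec '' K) = U.mulVec '' pol K := by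
  ext ξ
  simp only [pol, forall_mem_image, dot_mv, mem_ofPred_eq]
  refine ⟨fun H => ⟨_, H, by rw [mulVec_mulVec, mul_eq_one_comm.1 e, one_mulVec]⟩, ?_⟩
  rintro ⟨η, H, rfl⟩ x hx
  rw [mulVec_mulVec, e, one_mulVec]
  exact H x hx

def act (T U : M3) (p : V × V) : V × V := (T *ᵥ p.1, U *ᵥ p.2)

theorem act_cont (T U : M3) : Continuous (act T U) := by unfold act; fun_prop

theorem Body.ν_img (hK : Body K) {T U : M3} (e : Tᵀ * U = 1) (d : T.det = 1) :
    ν (T.mulVec '' K) = (ν K).map (act T U) := by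
  have hT := hK.img e
  have mp : MeasurePreserving Tᵀ.mulVec volume volume := ⟨by fun_prop, by
    exact (Real.map_matrix_volume_pi_eq_smul_volume_pi (M := Tᵀ) (by simp [d])).trans
      (by simp [d])⟩
  ext s hs
  have hs' := (act_cont T U).measurable hs
  rw [Measure.map_apply (act_cont T U).measurable hs, hT.ν_apply hs, hK.ν_apply hs',
    ← mp.lintegral_comp (hK.wm.coe_nnreal_ennreal.indicator (hK.meas hs'))]
  refine lintegral_congr_ae ?_
  filter_upwards [hT.good, mp.quasiMeasurePreserving.ae hK.good] with ξ g g'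
  have : S (T.mulVec '' K) ξ = act T U (S K (Tᵀ *ᵥ ξ)) := by
    rw [S, g.2 _ (mem_image_of_mem _ (g'.mem hK).1) (by rw [h_img, dot_mv]; exact (g'.mem hK).2),
      h_img, act, S, mulVec_smul, mulVec_mulVec, mul_eq_one_comm.1 e, one_mulVec]
  by_cases c : S (T.mulVec '' K) ξ ∈ s
  · rw [indicator_of_mem (show ξ ∈ _ ⁻¹' s from c), indicator_of_mem (by rwa [this] at c), h_img]
  · rw [indicator_of_notMem (show ξ ∉ _ ⁻¹' s from c), indicator_of_notMem (by rwa [this] at c)]

theorem map_inf {α : Type} [MeasurableSpace α] (a b : Measure α) {f g : α → α} (hf : Measurable f)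
    (hg : Measurable g) (e1 : g ∘ f = id) (e2 : f ∘ g = id) :
    (a ⊓ b).map f = a.map f ⊓ b.map f := by
  refine le_antisymm (le_inf (Measure.map_mono inf_le_left hf) (Measure.map_mono inf_le_right hf)) ?_
  rw [← Measure.map_id (μ := a.map f ⊓ b.map f), ← e2, ← Measure.map_map hf hg]
  refine Measure.map_mono (le_inf ((Measure.map_mono inf_le_left hg).trans_eq ?_)
    ((Measure.map_mono inf_le_right hg).trans_eq ?_)) hf <;>
  rw [Measure.map_map hg hf, e1, Measure.map_id]

theorem Body.m_img (hK : Body K) {T U : M3} (e : Tᵀ * U = 1) (d : T.det = 1) :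
    m (T.mulVec '' K) = (m K).map (act T U) := by
  have e1 : Uᵀ * T = 1 := by rw [← transpose_transpose T, ← transpose_mul, e, transpose_one]
  have d1 : U.det = 1 := by simpa [d] using congrArg det e
  rw [m, m, map_inf _ _ (act_cont T U).measurable (act_cont Uᵀ Tᵀ).measurable
    (funext fun p => by simp [act, e, e1])
    (funext fun p => by simp [act, mul_eq_one_comm.1 e, mul_eq_one_comm.1 e1]), hK.ν_img e d, μ, μ,
    pol_img e, hK.pol.ν_img e1 d1, Measure.map_map measurable_swap (act_cont _ _).measurable,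
    Measure.map_map (act_cont _ _).measurable measurable_swap]
  rfl

noncomputable def H (K : Set V) (A : M3) : ℝ := ∫ p, |p.2 ⬝ᵥ A *ᵥ p.1| ∂m K

theorem Fc (A : M3) : Continuous fun p : V × V => |p.2 ⬝ᵥ A *ᵥ p.1| := by fun_prop

theorem Body.Fi (hK : Body K) (A : M3) : Integrable (fun p : V × V => |p.2 ⬝ᵥ A *ᵥ p.1|) (m K) :=
  int_of hK.m_fin hK hK.m_N (Fc A)

theorem Body.H_img (hK : Body K) {T U : M3} (e : Tᵀ * U = 1) (d : T.det = 1) (A : M3) :
    H (T.mulVec '' K) A = H K (Uᵀ * A * T) := by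
  rw [H, hK.m_img e d, integral_map (act_cont _ _).aemeasurable (Fc A).aestronglyMeasurable]
  simp only [act, dot_mv, mulVec_mulVec, H, Matrix.mul_assoc]

theorem H_nonneg (K : Set V) (A : M3) : 0 ≤ H K A := integral_nonneg fun _ => abs_nonneg _

theorem H_smul (K : Set V) {c : ℝ} (hc : 0 < c) (A : M3) : H K (c • A) = c * H K A := by
  simp only [H, smul_mulVec, dotProduct_smul, smul_eq_mul, abs_mul, abs_of_pos hc,
    integral_const_mul]

theorem Body.H_add (hK : Body K) (A B : M3) : H K (A + B) ≤ H K A + H K B := by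
  rw [H, H, H, ← integral_add (hK.Fi A) (hK.Fi B)]
  exact integral_mono (hK.Fi _) ((hK.Fi A).add (hK.Fi B)) fun p => by
    simp only [add_mulVec, dotProduct_add]; exact abs_add_le _ _

theorem H_val (hK : Body K) (hL : Body L) (c : Convex ℝ (K ∪ L)) (A : M3) :
    H (K ∪ L) A + H (K ∩ L) A = H K A + H L A := by
  rw [H, H, H, H, ← integral_add_measure ((hK.union hL c).Fi A) ((hK.inter hL).Fi A),
    ← integral_add_measure (hK.Fi A) (hL.Fi A), val hK hL c]

def B : Set V := {x | x ⬝ᵥ x ≤ 1}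

theorem pol_B : pol B = B := by
  refine Subset.antisymm (fun ξ H => not_lt.1 fun (c : 1 < ξ ⬝ᵥ ξ) => ?_) fun ξ H x hx => ?_
  · have s1 : 1 < √(ξ ⬝ᵥ ξ) := Real.lt_sqrt_of_sq_lt (by simpa)
    have s2 := Real.mul_self_sqrt (show 0 ≤ ξ ⬝ᵥ ξ by linarith)
    generalize √(ξ ⬝ᵥ ξ) = t at *
    have := H (t⁻¹ • ξ) (by
      rw [B, mem_ofPred_eq, smul_dotProduct, dotProduct_smul, ← s2, smul_eq_mul, smul_eq_mul]
      field_simp; rfl)
    rw [smul_dotProduct, ← s2, smul_eq_mul, inv_mul_cancel_left₀ (by positivity)] at this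
    linarith
  · simp only [B, mem_ofPred_eq, dotProduct, Fin.sum_univ_three] at *
    nlinarith [sq_nonneg (x 0 - ξ 0), sq_nonneg (x 1 - ξ 1), sq_nonneg (x 2 - ξ 2)]

theorem body_B : Body B := by
  refine ⟨isCompact_of_isClosed_isBounded (isClosed_le (by fun_prop) continuous_const)
    ((isBounded_closedBall (x := 0) (r := 1)).subset fun x hx => ?_), ?_,
    mem_interior_iff_mem_nhds.2 (ContinuousAt.eventually_lt (f := fun x : V => x ⬝ᵥ x)
      (by fun_prop) continuousAt_const (by simp) |>.mono fun _ => le_of_lt)⟩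
  · rw [mem_closedBall_zero_iff, pi_norm_le_iff_of_nonneg zero_le_one]
    simp only [B, mem_ofPred_eq, dotProduct, Fin.sum_univ_three] at hx
    intro i
    rw [Real.norm_eq_abs, ← sq_le_one_iff_abs_le_one]
    fin_cases i <;> simp only [Fin.reduceFinMk, Fin.zero_eta, Fin.mk_one] <;>
      nlinarith [sq_nonneg (x 0), sq_nonneg (x 1), sq_nonneg (x 2)]
  · rw [← pol_B]
    intro a ha b hb s t hs ht hst x hx
    rw [dotProduct_add, dotProduct_smul, dotProduct_smul, smul_eq_mul, smul_eq_mul]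
    nlinarith [ha x hx, hb x hx]

theorem diag {p : V × V} (hp : p ∈ N B) : p.1 = p.2 := by
  obtain ⟨h1, h2, h3⟩ := hp
  rw [pol_B] at h2
  rw [← sub_eq_zero, ← dotProduct_self_eq_zero]
  refine le_antisymm ?_ (Finset.sum_nonneg fun i _ => mul_self_nonneg _)
  rw [sub_dotProduct, dotProduct_sub, dotProduct_sub, dotProduct_comm p.2 p.1]
  linarith [show p.1 ⬝ᵥ p.1 ≤ 1 from h1, show p.2 ⬝ᵥ p.2 ≤ 1 from h2]

theorem H_B : H B (single 0 1 1) ≠ 0 := fun c => by
  have e : m B = ν B := by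
    rw [m, μ, pol_B, Measure.map_congr (g := id) (body_B.ν_N.mono fun p hp =>
      Prod.ext (diag hp).symm (diag hp)), Measure.map_id, inf_idem]
  have h1 := (integral_eq_zero_iff_of_nonneg (fun _ => abs_nonneg _) (body_B.Fi _)).1 c
  rw [e] at h1
  have h2 := (body_B.ν_ae (isClosed_eq (Fc (single 0 1 1)) continuous_const).measurableSet).1 h1
  have o : IsOpen {ξ : V | h B ξ < 1 ∧ ξ 0 * ξ 1 ≠ 0} :=
    (isOpen_lt body_B.cont continuous_const).inter (isOpen_ne_fun (by fun_prop) continuous_const)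
  refine (o.measure_pos volume ⟨fun _ => 1 / 6, ?_, by norm_num⟩).ne'
    (measure_eq_zero_iff_ae_notMem.2 ?_)
  · refine lt_of_le_of_lt (body_B.h_le (c := 1 / 2) fun x hx => ?_) (by norm_num)
    simp only [B, mem_ofPred_eq, dotProduct, Fin.sum_univ_three] at *
    nlinarith [sq_nonneg (x 0 - 1 / 2), sq_nonneg (x 1 - 1 / 2), sq_nonneg (x 2 - 1 / 2)]
  filter_upwards [h2, body_B.good] with ξ a g ⟨b1, b2⟩
  have a1 : |(S B ξ).2 ⬝ᵥ single 0 1 1 *ᵥ (S B ξ).1| = 0 := a b1
  rw [diag (g.S_mem body_B)] at a1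
  simp [S, mulVec, dotProduct, Fin.sum_univ_three, single, (body_B.pos g.1).ne'] at a1
  exact b2 (mul_eq_zero.2 a1)

theorem approx (hK : Body K) : ∃ P : ℕ → Set V, (∀ j, Body (P j) ∧ m (P j) = 0) ∧
    Tendsto (fun j => hausdorffDist (P j) K) atTop (𝓝 0) := by
  obtain ⟨r, r0, hr⟩ := nhds_basis_closedBall.mem_iff.1 (mem_interior_iff_mem_nhds.1 hK.2.2)
  choose F F1 F2 F3 using fun j : ℕ =>
    finite_cover_balls_of_compact hK.1 (Nat.one_div_pos_of_nat (α := ℝ) (n := j))
  let G : Set V := univ.pi fun _ => {-r, r}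
  have G1 : G.Finite := Finite.pi fun _ => toFinite _
  have G2 : convexHull ℝ G = closedBall 0 r := by
    rw [convexHull_pi, closedBall_pi _ r0.le]
    simp [segment_eq_Icc (show -r ≤ r by linarith), Real.closedBall_eq_Icc]
  have b : ∀ j, Body (convexHull ℝ (F j ∪ G)) := fun j =>
    ⟨((F2 j).union G1).isCompact_convexHull ℝ, convex_convexHull _ _, mem_interior_iff_mem_nhds.2
      (mem_of_superset (closedBall_mem_nhds 0 r0) (G2 ▸ convexHull_mono subset_union_right))⟩
  refine ⟨_, fun j => ⟨b j, poly ((F2 j).union G1) (b j)⟩, squeeze_zero (fun _ => hausdorffDist_nonneg)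
    (fun j => hausdorffDist_le_of_mem_dist Nat.one_div_pos_of_nat.le (fun x hx => ⟨x, ?_, ?_⟩)
      fun x hx => ?_) tendsto_one_div_add_atTop_nhds_zero_nat⟩
  · exact convexHull_min (union_subset (F1 j) ((subset_convexHull ℝ G).trans (G2 ▸ hr))) hK.2.1 hx
  · rw [dist_self]; positivity
  · obtain ⟨y, hy, hd⟩ := mem_iUnion₂.1 (F3 j hx)
    exact ⟨y, subset_convexHull ℝ _ (Or.inl hy), le_of_lt hd⟩

end Pool.Agent.H.MP_aac655_gt
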