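import Pool.Agent.H.MP_aac655_gt.C

set_option autoImplicit false
open Set Filter Topology MeasureTheory Metric Matrix
open scoped Pointwise

namespace Pool.Agent.H.MP_aac655_gt

abbrev W := Fin 8 → ℝ
abbrev SL3 := SpecialLinearGroup (Fin 3) ℝ

def ι : W →ₗ[ℝ] M3 where
  toFun w := !![w 0, w 2, w 3; w 4, w 1, w 5; w 6, w 7, -w 0 - w 1]
  map_add' a b := by ext i j; fin_cases i <;> fin_cases j <;> simp; ring
  map_smul' c a := by ext i j; fin_cases i <;> fin_cases j <;> simp; ring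

def π : M3 →ₗ[ℝ] W where
  toFun A := ![A 0 0, A 1 1, A 0 1, A 0 2, A 1 0, A 1 2, A 2 0, A 2 1]
  map_add' a b := by ext i; fin_cases i <;> simp
  map_smul' c a := by ext i; fin_cases i <;> simp

theorem πι (w : W) : π (ι w) = w := by ext i; fin_cases i <;> simp [π, ι]

theorem tr_ι (w : W) : trace (ι w) = 0 := by simp [ι, trace_fin_three]

theorem ιπ {A : M3} (hA : trace A = 0) : ι (π A) = A := by
  rw [trace_fin_three] at hA
  ext i j; fin_cases i <;> fin_cases j <;> simp [π, ι]; linarith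

theorem mi (T : SL3) : T.1 * (T⁻¹).1 = 1 := congrArg Subtype.val (mul_inv_cancel T)

theorem im (T : SL3) : (T⁻¹).1 * T.1 = 1 := mul_eq_one_comm.1 (mi T)

theorem tr_conj (T : SL3) (w : W) : trace (T.1 * ι w * (T⁻¹).1) = 0 := by
  rw [trace_mul_cycle, im, one_mul, tr_ι]

def ρ0 : SL3 →* Module.End ℝ W where
  toFun T := π ∘ₗ LinearMap.mulRight ℝ (T⁻¹).1 ∘ₗ LinearMap.mulLeft ℝ T.1 ∘ₗ ι
  map_one' := LinearMap.ext fun w => by simp [πι]
  map_mul' S T := LinearMap.ext fun w => by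
    change π ((S * T).1 * ι w * ((S * T)⁻¹).1) = π (S.1 * ι (π (T.1 * ι w * (T⁻¹).1)) * (S⁻¹).1)
    rw [ιπ (tr_conj T w), _root_.mul_inv_rev]
    change π (S.1 * T.1 * ι w * ((T⁻¹).1 * (S⁻¹).1)) = _
    simp only [Matrix.mul_assoc]

noncomputable def ρ : SL3 →* GeneralLinearGroup (Fin 8) ℝ :=
  ((LinearMap.toMatrixAlgEquiv' (R := ℝ) (n := Fin 8)).toMonoidHom.comp ρ0).toHomUnits

theorem ρ_mv (T : SL3) (w : W) : ι ((ρ T).val *ᵥ w) = T.1 * ι w * (T⁻¹).1 := by
  rw [← ιπ (tr_conj T w)]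
  exact congrArg ι (LinearMap.toMatrix'_mulVec (ρ0 T) w)

theorem ρ_cont : Continuous fun A : {A : M3 // A.det = 1} => (ρ (⟨A.1, A.2⟩ : SL3)).val :=
  continuous_matrix fun i j => ((continuous_apply i).comp (π.continuous_of_finiteDimensional.comp
    (f := fun A : {A : M3 // A.det = 1} => A.1 * ι (Pi.single j 1) * adjugate A.1)
    ((continuous_subtype_val.matrix_mul continuous_const).matrix_mul
      continuous_subtype_val.matrix_adjugate))).congr fun A => by
    have := congrArg (π · i) (ρ_mv ⟨A.1, A.2⟩ (Pi.single j 1))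
    simp only [πι, mulVec_single_one] at this
    exact this.symm

def tv {i j : Fin 3} (e : i ≠ j) (c : ℝ) : SL3 := ⟨transvection i j c, det_transvection_of_ne i j e c⟩

theorem tv_inv {i j : Fin 3} (e : i ≠ j) (c : ℝ) : (tv e c)⁻¹ = tv e (-c) :=
  inv_eq_of_mul_eq_one_right (Subtype.ext (by
    change transvection i j c * transvection i j (-c) = 1
    rw [transvection_mul_transvection_same _ _ e, add_neg_cancel, transvection_zero]))

theorem irr (U : Submodule ℝ W) (hU : ∀ T : SL3, ∀ w ∈ U, (ρ T).val *ᵥ w ∈ U) : U = ⊥ ∨ U = ⊤ := by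
  refine or_iff_not_imp_left.2 fun c => ?_
  obtain ⟨w, hw, w0⟩ := (Submodule.ne_bot_iff _).1 c
  have h1 : ∀ {i j : Fin 3} (e : i ≠ j) (c : ℝ), ∀ A ∈ U.map ι,
      (1 + single i j c) * A * (1 + single i j (-c)) ∈ U.map ι := by
    rintro i j e c _ ⟨a, ha, rfl⟩
    exact ⟨_, hU (tv e c) a ha, by rw [ρ_mv, tv_inv]; rfl⟩
  have br : ∀ {i j : Fin 3}, i ≠ j → ∀ A ∈ U.map ι, single i j 1 * A - A * single i j 1 ∈ U.map ι :=
    fun {i j} e A hA => by
    have := (U.map ι).smul_mem (1 / 2 : ℝ) (sub_mem (h1 e 1 A hA) (h1 e (-1) A hA))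
    rw [neg_neg, ← single_neg] at this
    convert this using 1
    simp only [add_mul, mul_add, neg_mul, mul_neg, one_mul, mul_one]
    module
  have off : ∀ {i j : Fin 3}, i ≠ j → ∀ A ∈ U.map ι, A j i ≠ 0 → single i j 1 ∈ U.map ι :=
    fun {i j} e A hA h0 => by
    have := (U.map ι).smul_mem (A j i)⁻¹ (sub_mem (add_mem hA (br e A hA)) (h1 e 1 A hA))
    rw [← single_neg] at this
    convert this using 1
    simp only [add_mul, mul_add, mul_neg, one_mul, mul_one, single_mul_mul_single]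
    rw [show single i j (A j i) = A j i • single i j (1 : ℝ) by simp]
    rw [show ∀ a b c d : M3, a + (b - c) - (a + b + -(c + d)) = d from fun a b c d => by abel,
      inv_smul_smul₀ h0]
  have dg : ∀ {i j : Fin 3}, i ≠ j → ∀ A ∈ U.map ι, A j j ≠ A i i → single j i 1 ∈ U.map ι :=
    fun {i j} e A hA h0 => off e.symm _ (br e A hA) (by simpa [sub_eq_zero] using h0)
  obtain ⟨i, j, e, hij⟩ : ∃ i j : Fin 3, i ≠ j ∧ single i j 1 ∈ U.map ι := by
    by_contra! c
    have a : ∀ i j, i ≠ j → ι w j i = 0 ∧ ι w j j = ι w i i := fun i j e =>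
      ⟨by_contra fun d => c _ _ e (off e _ ⟨w, hw, rfl⟩ d),
        by_contra fun d => c _ _ e.symm (dg e _ ⟨w, hw, rfl⟩ d)⟩
    have a1 := a 0 1 (by decide)
    have a2 := a 0 2 (by decide)
    have a3 := a 1 2 (by decide)
    have a4 := a 1 0 (by decide)
    have a5 := a 2 0 (by decide)
    have a6 := a 2 1 (by decide)
    simp [ι] at a1 a2 a3 a4 a5 a6
    refine w0 (funext fun i => ?_)
    fin_cases i <;> simp <;> linarith [a1.1, a1.2, a2.1, a2.2, a3.1, a4.1, a5.1, a6.1]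
  have all : ∀ k l : Fin 3, k ≠ l → single l k 1 ∈ U.map ι := fun k l d =>
    dg d _ (br e _ (off e.symm _ hij (by simp))) (by
      rw [single_mul_single_same, single_mul_single_same]
      clear hij
      fin_cases i <;> fin_cases j <;> fin_cases k <;> fin_cases l <;> simp at e d ⊢ <;> norm_num)
  refine eq_top_iff.2 fun x _ => ?_
  have : ι x ∈ U.map ι := by
    have s := fun k l d (c : ℝ) => (U.map ι).smul_mem c (all k l d)
    have t := fun k l d (c : ℝ) => (U.map ι).smul_mem c (br d _ (all k l d))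
    convert add_mem (add_mem (add_mem (t 0 2 (by decide) (x 0)) (t 1 2 (by decide) (x 1)))
      (add_mem (s 1 0 (by decide) (x 2)) (s 2 0 (by decide) (x 3)))) (add_mem (add_mem
      (s 0 1 (by decide) (x 4)) (s 2 1 (by decide) (x 5))) (add_mem (s 0 2 (by decide) (x 6))
      (s 1 2 (by decide) (x 7)))) using 1
    ext i j; fin_cases i <;> fin_cases j <;> simp [ι]; ring
  obtain ⟨y, hy, e⟩ := this
  rwa [← πι x, ← e, πι]

theorem fix {i j : Fin 3} (e : i ≠ j) {c : ℝ} (hc : c ≠ 0) {w : W} (H : (ρ (tv e c)).val *ᵥ w = w) :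
    single i j 1 * ι w = ι w * single i j 1 := by
  have := congrArg (· * (tv e c).1) (ρ_mv (tv e c) w)
  simp only [H, Matrix.mul_assoc, im, mul_one] at this
  change _ * (1 + single i j c) = (1 + single i j c) * _ at this
  rw [show single i j c = c • single i j (1 : ℝ) by simp, mul_add, add_mul, mul_one, one_mul,
    mul_smul_comm, smul_mul_assoc, add_right_inj] at this
  exact (smul_right_injective _ hc this).symm

theorem ent {i j : Fin 3} {A : M3} (H : single i j 1 * A = A * single i j 1) :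
    (∀ k, k ≠ j → A j k = 0) ∧ (∀ k, k ≠ i → A k i = 0) ∧ A j j = A i i :=
  ⟨fun k hk => by simpa [hk] using congrFun (congrFun H i) k,
    fun k hk => by simpa [hk] using (congrFun (congrFun H k) j).symm,
    by simpa using congrFun (congrFun H i) j⟩

theorem comm {w : W} (H : (∀ i j : Fin 3, i ≠ j → j ≠ 0 → single i j 1 * ι w = ι w * single i j 1) ∨
    ∀ i j : Fin 3, i ≠ j → i ≠ 0 → single i j 1 * ι w = ι w * single i j 1) : w = 0 := by
  have a3 := ent (H.elim (· 1 2 (by decide) (by decide)) (· 1 2 (by decide) (by decide)))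
  have a4 := ent (H.elim (· 2 1 (by decide) (by decide)) (· 2 1 (by decide) (by decide)))
  have a1 : ι w 1 1 = ι w 0 0 := H.elim (fun H => (ent (H 0 1 (by decide) (by decide))).2.2)
    fun H => (ent (H 1 0 (by decide) (by decide))).2.2.symm
  simp [Fin.forall_fin_succ, ι] at a1 a3 a4
  obtain ⟨⟨b1, b2⟩, ⟨b3, -⟩, b4⟩ := a3
  obtain ⟨⟨c1, c2⟩, ⟨c3, -⟩, -⟩ := a4
  ext i; fin_cases i <;> simp <;> linarith

def β (w a : W) : ℝ := trace (ι w * ι a)

theorem β_eq (w a : W) : β w a = 2 * w 0 * a 0 + 2 * w 1 * a 1 + w 0 * a 1 + w 1 * a 0 + w 2 * a 4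
    + w 4 * a 2 + w 3 * a 6 + w 6 * a 3 + w 5 * a 7 + w 7 * a 5 := by
  simp [β, ι, trace_fin_three]; ring

theorem β_cont (a : W) : Continuous (β · a) := by simp only [β_eq]; fun_prop

theorem rep8 (g : W →ₗ[ℝ] ℝ) : ∃ w, ∀ a, β w a = g a := by
  obtain ⟨c, hc⟩ : ∃ c : W, ∀ a, g a = ∑ i, a i * c i := ⟨_, LinearMap.pi_apply_eq_sum_univ g⟩
  exact ⟨![(2 * c 0 - c 1) / 3, (2 * c 1 - c 0) / 3, c 4, c 6, c 2, c 7, c 3, c 5], fun a => by
    simp [hc, β_eq, Fin.sum_univ_eight]; ring⟩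

theorem bd : ∃ a : Fin 8 × Bool → W, ∀ w R, (∀ i, β w (a i) ≤ R) → ‖w‖ ≤ R := by
  choose a ha using fun i : Fin 8 × Bool => rep8 ((if i.2 then (1 : ℝ) else -1) • LinearMap.proj i.1)
  refine ⟨a, fun w R H => ?_⟩
  have : ∀ i, |w i| ≤ R := fun i => by
    have h1 := H (i, true)
    have h2 := H (i, false)
    rw [β, trace_mul_comm, ← β, ha] at h1 h2
    simp at h1 h2
    exact abs_le.2 ⟨by linarith, h1⟩
  exact (pi_norm_le_iff_of_nonneg ((abs_nonneg _).trans (this 0))).2 this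

def C (p : W → ℝ) : Set W := {w | ∀ a, β w a ≤ p a}

theorem C_cpt (p : W → ℝ) : IsCompact (C p) := by
  obtain ⟨a, ha⟩ := bd
  obtain ⟨R, hR⟩ := (finite_range fun i => p (a i)).bddAbove
  refine isCompact_of_isClosed_isBounded ?_ ((isBounded_closedBall (x := 0) (r := R)).subset
    fun w hw => mem_closedBall_zero_iff.2 (ha w R fun i => (hw _).trans (hR ⟨i, rfl⟩)))
  simp only [C, ofPred_forall]
  exact isClosed_iInter fun a => isClosed_le (β_cont a) continuous_const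

theorem C_conv (p : W → ℝ) : Convex ℝ (C p) := fun x hx y hy s t hs ht e a => by
  have : β (s • x + t • y) a = s * β x a + t * β y a := by simp [β, add_mul]
  rw [this, ← one_mul (p a), ← e, add_mul]
  exact add_le_add (mul_le_mul_of_nonneg_left (hx a) hs) (mul_le_mul_of_nonneg_left (hy a) ht)

theorem hb {E F : Type} [AddCommGroup E] [Module ℝ E] [AddCommGroup F] [Module ℝ F] (p : E → ℝ)
    (h1 : ∀ c : ℝ, 0 < c → ∀ x, p (c • x) = c * p x) (h2 : ∀ x y, p (x + y) ≤ p x + p y)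
    (d : F →ₗ[ℝ] E) (hd : Function.Injective d) (f : F →ₗ[ℝ] ℝ) (H : ∀ x, f x ≤ p (d x)) :
    ∃ g : E →ₗ[ℝ] ℝ, (∀ x, g (d x) = f x) ∧ ∀ x, g x ≤ p x := by
  obtain ⟨g, g1, g2⟩ := exists_extension_of_le_sublinear
    ⟨LinearMap.range d, f ∘ₗ (LinearEquiv.ofInjective d hd).symm.toLinearMap⟩ p h1 h2 fun x => by
      obtain ⟨y, rfl⟩ := (LinearEquiv.ofInjective d hd).surjective x
      exact (congrArg f ((LinearEquiv.ofInjective d hd).symm_apply_apply y)).trans_le (H y)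
  exact ⟨g, fun x => (g1 (LinearEquiv.ofInjective d hd x)).trans
    (congrArg f ((LinearEquiv.ofInjective d hd).symm_apply_apply x)), g2⟩

def Sub (p : W → ℝ) : Prop :=
  (∀ c : ℝ, 0 < c → ∀ x, p (c • x) = c * p x) ∧ ∀ x y, p (x + y) ≤ p x + p y

theorem Sub.zero {p : W → ℝ} (hp : Sub p) : p 0 = 0 := by
  have := hp.1 2 two_pos 0
  rw [smul_zero] at this; linarith

theorem C_add {p q : W → ℝ} (hp : Sub p) (hq : Sub q) : C p + C q = C fun a => p a + q a := by
  refine Subset.antisymm ?_ fun w hw => ?_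
  · rintro _ ⟨x, hx, y, hy, rfl⟩ a
    have : β (x + y) a = β x a + β y a := by simp [β, add_mul]
    exact this.trans_le (add_le_add (hx a) (hy a))
  obtain ⟨g, g1, g2⟩ := hb (fun z : W × W => p z.1 + q z.2)
    (fun c hc z => by simp [hp.1 c hc, hq.1 c hc, mul_add])
    (fun x y => by
      rw [Prod.fst_add, Prod.snd_add]; linarith [hp.2 x.1 y.1, hq.2 x.2 y.2])
    (LinearMap.id.prod LinearMap.id) (fun _ _ e => congrArg Prod.fst e)
    (traceLinearMap _ ℝ ℝ ∘ₗ LinearMap.mulLeft ℝ (ι w) ∘ₗ ι) hw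
  obtain ⟨x, hx⟩ := rep8 (g ∘ₗ LinearMap.inl ℝ W W)
  refine ⟨x, fun a => (hx a).trans_le (by simpa [hq.zero] using g2 (a, 0)), w - x, fun a => ?_,
    add_sub_cancel x w⟩
  have e1 : β (w - x) a = β w a - β x a := by simp [β, sub_mul]
  have e2 : g (a, a) = β w a := g1 a
  have e3 : g (a, a) = g (a, 0) + g (0, a) := by rw [← map_add]; simp
  have e4 : β x a = g (a, 0) := hx a
  have := g2 (0, a)
  simp only [hp.zero] at this
  linarith

theorem C_ne {p : W → ℝ} (hp : Sub p) (h0 : ∀ a, 0 ≤ p a) {a : W} (ha : p a ≠ 0) : C p ≠ {0} := by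
  have a0 : a ≠ 0 := fun e => ha (e ▸ hp.zero)
  obtain ⟨g, g1, g2⟩ := hb p hp.1 hp.2 (LinearMap.toSpanSingleton ℝ W a)
    (fun _ _ e => smul_left_injective ℝ a0 e) (LinearMap.toSpanSingleton ℝ ℝ (p a)) fun t => by
      change t * p a ≤ p (t • a)
      rcases lt_or_ge 0 t with c | c
      · rw [hp.1 t c]
      · nlinarith [h0 a, h0 (t • a)]
  obtain ⟨x, hx⟩ := rep8 g
  intro e
  have : x ∈ C p := fun b => (hx b).trans_le (g2 b)
  rw [e, mem_singleton_iff] at this
  have e1 := g1 1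
  simp only [LinearMap.toSpanSingleton_apply, one_smul] at e1
  rw [← e1, ← hx, this] at ha
  simp [β] at ha

theorem C_zero : C (fun _ => 0) = {0} := by
  obtain ⟨a, ha⟩ := bd
  exact eq_singleton_iff_unique_mem.2 ⟨fun a => by simp [β], fun w hw =>
    norm_le_zero_iff.1 (ha w 0 fun i => hw _)⟩

theorem C_usc {p : ℕ → W → ℝ} {q : W → ℝ} (H : ∀ a ε, 0 < ε → ∀ᶠ j in atTop, p j a ≤ q a + ε)
    {D : Set W} (hD : D ∈ 𝓝 0) : ∀ᶠ j in atTop, C (p j) ⊆ C q + D := by
  by_contra c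
  obtain ⟨φ, hφ, h1⟩ := extraction_of_frequently_atTop (not_eventually.1 c)
  simp only [not_subset] at h1
  choose w w1 w2 using h1
  obtain ⟨a, ha⟩ := bd
  obtain ⟨R, hR⟩ := (finite_range fun i => q (a i)).bddAbove
  obtain ⟨y, -, ψ, hψ, t⟩ := (isCompact_closedBall (0 : W) (R + 1)).tendsto_subseq' (x := w)
    ((hφ.tendsto_atTop.eventually (eventually_all.2 fun i => H (a i) 1 one_pos)).mono
      fun n hn => mem_closedBall_zero_iff.2 (ha _ _ fun i => (w1 n _).trans ((hn i).trans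
        (add_le_add (hR ⟨i, rfl⟩) le_rfl)))).frequently
  have hy : y ∈ C q := fun b => le_of_forall_pos_le_add fun ε hε =>
    le_of_tendsto (((β_cont b).tendsto y).comp t)
      (((hφ.comp hψ).tendsto_atTop.eventually (H b ε hε)).mono fun n hn => (w1 _ b).trans hn)
  obtain ⟨n, hn⟩ := ((tendsto_sub_nhds_zero_iff.2 t).eventually hD).exists
  exact w2 (ψ n) ⟨y, hy, _, hn, add_sub_cancel _ _⟩

noncomputable def Φ (K : Set V) : Set W := C fun a => H K (ι a)

theorem Body.sub' {K : Set V} (hK : Body K) : Sub fun a => H K (ι a) :=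
  ⟨fun c hc a => by simp only [map_smul, H_smul K hc], fun a b => by
    simp only [map_add]; exact hK.H_add _ _⟩

theorem Φ_inv {K : Set V} (hK : Body K) (T : SL3) :
    (ρ T).val.mulVec '' Φ ((T⁻¹).1.mulVec '' K) = Φ K := by
  have e : ((T⁻¹).1)ᵀ * T.1ᵀ = 1 := by rw [← transpose_mul, mi, transpose_one]
  have k : ∀ w a, β ((ρ T).val *ᵥ w) ((ρ T).val *ᵥ a) = β w a := fun w a => by
    rw [β, ρ_mv, ρ_mv, Matrix.mul_assoc, Matrix.mul_assoc T.1 (ι a), ← Matrix.mul_assoc (T⁻¹).1, im,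
      one_mul, ← Matrix.mul_assoc, trace_mul_cycle, ← Matrix.mul_assoc, im, one_mul, β]
  have s : ∀ a, ∃ b, (ρ T).val *ᵥ b = a := fun a =>
    ⟨(ρ T⁻¹).val *ᵥ a, by rw [mulVec_mulVec, ← Units.val_mul, ← map_mul, mul_inv_cancel]; simp⟩
  have k2 : ∀ a, H ((T⁻¹).1.mulVec '' K) (ι a) = H K (ι ((ρ T).val *ᵥ a)) := fun a => by
    rw [hK.H_img e (T⁻¹).2, ρ_mv, transpose_transpose]
  ext w
  obtain ⟨w, rfl⟩ := s w
  refine ⟨?_, fun H => ⟨w, fun a => by rw [← k]; exact (H _).trans_eq (k2 a).symm, rfl⟩⟩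
  rintro ⟨x, hx, e⟩ a
  obtain ⟨a, rfl⟩ := s a
  rw [← e, k]
  exact (hx a).trans_eq (k2 a)

end Pool.Agent.H.MP_aac655_gt
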